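import Mathlib

set_option autoImplicit false

namespace Pool.Agent.Results.MP_6050fa_nt.Coprime

theorem gap (z e : ℕ) (hz : 1 ≤ z) : z ^ (e + 2) + (e + 2) * z + 1 ≤ (z + 1) ^ (e + 2) := by
  induction e with
  | zero => apply le_of_eq; ring
  | succ e ih =>
    have h1 : (z + 1) ^ (e + 1 + 2) = (z + 1) ^ (e + 2) * (z + 1) := by ring
    have h2 : z ^ (e + 1 + 2) = z ^ (e + 2) * z := by ring
    have h3 := Nat.mul_le_mul_right (z + 1) ih
    have h4 : z ≤ z * z := Nat.le_mul_of_pos_right _ hz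
    rw [h1, h2]
    nlinarith [Nat.zero_le (z ^ (e + 2))]

theorem cop (x n y m : ℕ) (hx : 2 ≤ x) (hn : 2 ≤ n)
    (h : x ^ n = y ^ m + n ∨ x ^ n + n = y ^ m) : n.Coprime m := by
  apply Nat.Coprime.symm
  apply Nat.coprime_of_dvd
  intro d hd hm hdn
  obtain ⟨l, rfl⟩ := hm
  obtain ⟨k, rfl⟩ := hdn
  obtain ⟨e, rfl⟩ : ∃ e, d = e + 2 := ⟨d - 2, by have := hd.two_le; omega⟩
  have hk : 1 ≤ k := by
    rcases Nat.eq_zero_or_pos k with rfl | h
    · simp at hn
    · exact h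
  rw [mul_comm (e + 2) k, mul_comm (e + 2) l, pow_mul, pow_mul] at h
  set X := x ^ k with hX
  set Y := y ^ l
  have hXk : k < X := lt_of_lt_of_le Nat.lt_two_pow_self (Nat.pow_le_pow_left hx k)
  rcases h with h | h
  · have hlt : Y < X := by
      apply lt_of_pow_lt_pow_left₀ (e + 2) (Nat.zero_le _)
      have : 0 < k * (e + 2) := by positivity
      omega
    obtain ⟨z, hz⟩ : ∃ z, X = z + 1 := ⟨X - 1, by omega⟩
    have h1 := gap z e (by omega)
    have h2 : Y ^ (e + 2) ≤ z ^ (e + 2) := Nat.pow_le_pow_left (by omega) _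
    have h3 : k * (e + 2) ≤ (e + 2) * z := by rw [mul_comm]; exact Nat.mul_le_mul_left _ (by omega)
    rw [hz] at h
    omega
  · have hlt : X < Y := by
      apply lt_of_pow_lt_pow_left₀ (e + 2) (Nat.zero_le _)
      have : 0 < k * (e + 2) := by positivity
      omega
    have h1 := gap X e (by omega)
    have h2 : (X + 1) ^ (e + 2) ≤ Y ^ (e + 2) := Nat.pow_le_pow_left (by omega) _
    have h3 : k * (e + 2) ≤ (e + 2) * X := by rw [mul_comm]; exact Nat.mul_le_mul_left _ (by omega)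
    omega

theorem common (x n y m p : ℕ) (hn : 2 ≤ n) (hp : p.Prime) (hpx : p ∣ x) (hpn : p ∣ n)
    (h : x ^ n = y ^ m + n ∨ x ^ n + n = y ^ m) : p ^ m ∣ n := by
  have h1 : p ^ n ∣ x ^ n := pow_dvd_pow_of_dvd hpx n
  have h0 : p ∣ x ^ n := dvd_pow hpx (by omega)
  have hy : p ∣ y := by
    apply hp.dvd_of_dvd_pow (n := m)
    rcases h with h | h
    · rw [h] at h0; exact (Nat.dvd_add_left hpn).1 h0
    · rw [← h]; exact dvd_add h0 hpn
  have h2 : p ^ m ∣ y ^ m := pow_dvd_pow_of_dvd hy m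
  have key : ∀ q : ℕ, q ∣ x ^ n → q ∣ y ^ m → q ∣ n := by
    intro q a b
    rcases h with h | h
    · rw [h] at a; exact (Nat.dvd_add_right b).1 a
    · rw [← h] at b; exact (Nat.dvd_add_right a).1 b
  by_cases hmn : m ≤ n
  · exact key _ ((pow_dvd_pow p hmn).trans h1) h2
  · exfalso
    have h3 := key _ h1 ((pow_dvd_pow p (by omega)).trans h2)
    have h4 := Nat.le_of_dvd (by omega) h3
    have h5 : n < p ^ n := Nat.lt_pow_self hp.one_lt
    omega

/-- Every solution of `x^n - n = y^m` or `x^n + n = y^m` in integers `≥ 2` has `gcd(n, m) = 1`,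
and every prime `p` dividing both `x` and `n` satisfies `p^m ∣ n`. -/
theorem result : ∀ x n y m : ℕ, 2 ≤ x → 2 ≤ n → 2 ≤ y → 2 ≤ m →
    ((x : ℤ) ^ n - n = (y : ℤ) ^ m ∨ (x : ℤ) ^ n + n = (y : ℤ) ^ m) →
    Nat.gcd n m = 1 ∧ ∀ p : ℕ, p.Prime → p ∣ x → p ∣ n → p ^ m ∣ n := by
  intro x n y m hx hn _ _ h
  have h' : x ^ n = y ^ m + n ∨ x ^ n + n = y ^ m := by
    rcases h with h | h
    · left
      have : (x : ℤ) ^ n = (y : ℤ) ^ m + n := by linarith
      exact_mod_cast this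
    · right
      exact_mod_cast h
  exact ⟨cop x n y m hx hn h', fun p hp a b => common x n y m p hn hp a b h'⟩

end Pool.Agent.Results.MP_6050fa_nt.Coprime
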